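import Mathlib
import Pool.Agent.V1128.Quat.Key

set_option autoImplicit false

namespace Pool.Agent.Results.MP_427463_al.AllN

open Pool.Agent.V1128.Quat QuaternionGroup

/-- A group is a CA-group if the centralizer of every non-trivial element is abelian. -/
def IsCA (G : Type) [Group G] : Prop :=
  ∀ g : G, g ≠ 1 → ∀ x y : G, x * g = g * x → y * g = g * y → x * y = y * x

variable {k : ℕ} [NeZero k]

omit [NeZero k] in
theorem chi_one : chi k 1 = 0 := rfl

omit [NeZero k] in
theorem chi_inv (q : QuaternionGroup k) : chi k q⁻¹ = chi k q := by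
  have h := chi_mul q⁻¹ q
  rw [inv_mul_cancel, chi_one] at h
  rw [← neg_mod_two (chi k q)]
  linear_combination -h

variable (k) in
/-- The group: the elements `(v, q)` with `|v| = χ(q)`. -/
def GG : Subgroup (Aff (OddF k) (QuaternionGroup k)) where
  carrier := {x | aug x.v = chi k x.q}
  one_mem' := by
    change aug (0 : OddF k) = chi k 1
    rw [map_zero, chi_one]
  mul_mem' := by
    intro x y hx hy
    change aug (x.v + x.q • y.v) = chi k (x.q * y.q)
    rw [map_add, aug_smul, chi_mul, show aug x.v = chi k x.q from hx,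
      show aug y.v = chi k y.q from hy]
  inv_mem' := by
    intro x hx
    change aug (-(x.q⁻¹ • x.v)) = chi k x.q⁻¹
    rw [map_neg, aug_smul, chi_inv, show aug x.v = chi k x.q from hx, neg_mod_two]

theorem toZMod_cont : @Continuous _ _ _ ⊥ (PadicInt.toZMod : ℤ_[2] →+* ZMod 2) := by
  let _ : TopologicalSpace (ZMod 2) := ⊥
  have _ : DiscreteTopology (ZMod 2) := ⟨rfl⟩
  rw [continuous_iff_continuousAt]
  intro x
  have h1 : Metric.ball x 1 ∈ nhds x := Metric.ball_mem_nhds x one_pos
  have h2 : ContinuousAt (fun _ : ℤ_[2] => PadicInt.toZMod x) x := continuousAt_const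
  refine h2.congr ?_
  filter_upwards [h1] with y hy
  rw [Metric.mem_ball, dist_eq_norm] at hy
  have h3 : y - x ∈ IsLocalRing.maximalIdeal ℤ_[2] := by
    rw [IsLocalRing.mem_maximalIdeal, PadicInt.mem_nonunits]
    exact hy
  rw [← PadicInt.ker_toZMod, RingHom.mem_ker, map_sub, sub_eq_zero] at h3
  exact h3.symm

theorem aug_cont : @Continuous _ _ _ ⊥ (aug : OddF k →+ ZMod 2) := by
  let _ : TopologicalSpace (ZMod 2) := ⊥
  have _ : DiscreteTopology (ZMod 2) := ⟨rfl⟩
  change Continuous fun f : OddF k => ∑ d, bar f d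
  apply continuous_finsetSum
  intro d _
  induction d using QuotientGroup.induction_on with
  | H q => exact toZMod_cont.comp ((continuous_apply q).comp continuous_subtype_val)

theorem GG_closed : IsClosed (GG k : Set (Aff (OddF k) (QuaternionGroup k))) := by
  let _ : TopologicalSpace (ZMod 2) := ⊥
  have _ : DiscreteTopology (ZMod 2) := ⟨rfl⟩
  let _ : TopologicalSpace (QuaternionGroup k) := ⊥
  have _ : DiscreteTopology (QuaternionGroup k) := ⟨rfl⟩
  have h1 : Continuous (chi k) := continuous_of_discreteTopology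
  exact isClosed_eq (aug_cont.comp cont_v) (h1.comp cont_q)

omit [NeZero k] in
theorem two_smul_eq_zero {f : OddF k} (h : 2 • f = 0) : f = 0 := by
  apply Subtype.ext
  funext q
  have h1 := congrArg (fun f : OddF k => f.1 q) h
  simpa using h1

/-- every nontrivial element has the central involution as a power -/
theorem exists_pow {N : ℕ} (q : QuaternionGroup (2 ^ N)) (hq : q ≠ 1) : ∃ m : ℕ, q ^ m = zz (2 ^ N) := by
  rcases q with s | s
  · have hs : s ≠ 0 := by
      rintro rfl
      exact hq rfl
    obtain ⟨r, hr⟩ := num1 hs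
    exact ⟨r, by rw [pow_a, hr]⟩
  · exact ⟨2, by rw [xa_sq]⟩

theorem fpf {N : ℕ} {q : QuaternionGroup (2 ^ N)} (hq : q ≠ 1) {f : OddF (2 ^ N)} (h : q • f = f) : f = 0 := by
  obtain ⟨m, hm⟩ := exists_pow q hq
  have h1 : ∀ m : ℕ, q ^ m • f = f := by
    intro m
    induction m with
    | zero => simp
    | succ m ih => rw [pow_succ, mul_smul, h, ih]
  have h2 := h1 m
  rw [hm, zz_smul] at h2
  apply two_smul_eq_zero
  rw [two_nsmul]
  nth_rewrite 1 [← h2]
  exact neg_add_cancel f

theorem ca {N : ℕ} (hN : 1 ≤ N) : IsCA (GG (2 ^ N)) := by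
  have hpow : 2 ^ N = 2 * 2 ^ (N - 1) := by rw [← pow_succ', Nat.sub_add_cancel hN]
  have hpos : 0 < 2 ^ (N - 1) := by positivity
  rintro ⟨h, hG⟩ hne ⟨x, hxG⟩ ⟨y, hyG⟩ hx hy
  have hne' : h ≠ 1 := fun e => hne (Subtype.ext e)
  replace hx : x * h = h * x := congrArg Subtype.val hx
  replace hy : y * h = h * y := congrArg Subtype.val hy
  apply Subtype.ext
  change x * y = y * x
  by_cases hq : h.q = 1
  · have hv : h.v ≠ 0 := fun e => hne' (Aff.ext e hq)
    have key : ∀ x : Aff (OddF (2 ^ N)) (QuaternionGroup (2 ^ N)), x * h = h * x → x.q = 1 := by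
      intro x hx
      by_contra hxq
      have h1 := congrArg Aff.v hx
      rw [mul_v, mul_v, hq, one_smul, add_comm, add_right_cancel_iff] at h1
      exact hv (fpf hxq h1)
    apply Aff.ext
    · rw [mul_v, mul_v, key x hx, key y hy, one_smul, one_smul, add_comm]
    · rw [mul_q, mul_q, key x hx, key y hy]
  · obtain ⟨m, hm⟩ := exists_pow h.q hq
    set t := h ^ m with ht
    have htq : t.q = zz (2 ^ N) := by
      rw [← hm]
      exact map_pow lin h m
    have hxt : ∀ x : Aff (OddF (2 ^ N)) (QuaternionGroup (2 ^ N)), x * h = h * x → x * t = t * x := by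
      intro x hx
      exact Commute.pow_right hx m
    -- the centralizer of `t`
    have hC : ∀ x : Aff (OddF (2 ^ N)) (QuaternionGroup (2 ^ N)), x * t = t * x →
        2 • x.v = t.v - x.q • t.v := by
      intro x hx
      have h1 := congrArg Aff.v hx
      rw [mul_v, mul_v, htq, zz_smul] at h1
      rw [two_nsmul]
      have h2 : x.v = t.v + -x.v - x.q • t.v := by rw [← h1]; abel
      nth_rewrite 1 [h2]
      abel
    have hC1 : ∀ x : Aff (OddF (2 ^ N)) (QuaternionGroup (2 ^ N)), x * t = t * x → x.q = 1 → x = 1 := by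
      intro x hx hq
      have h1 := hC x hx
      rw [hq, one_smul, sub_self] at h1
      exact Aff.ext (two_smul_eq_zero h1) hq
    have hno : ∀ X Y : Aff (OddF (2 ^ N)) (QuaternionGroup (2 ^ N)), Y ∈ GG (2 ^ N) →
        X * t = t * X → Y * t = t * Y → (∃ s, 2 * s ≠ 0 ∧ X.q = a s) → (∃ l, Y.q = xa l) → False := by
      rintro X Y hYG hX hY ⟨s, hs, hXs⟩ ⟨l, hYl⟩
      obtain ⟨r, hr⟩ := num2 hN hs
      have hXr : (X ^ r) * t = t * X ^ r := Commute.pow_left hX r
      have hXrq : (X ^ r).q = a ((2 ^ (N - 1) : ℕ) : ZMod (2 * 2 ^ N)) := by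
        have : (X ^ r).q = X.q ^ r := map_pow lin X r
        rw [this, hXs, pow_a, hr]
      have e1 : aug Y.v = 0 := by
        apply key (i := (X ^ r).q) (j := Y.q) _ _ _ _ _ _ (hC Y hY) (hC _ hXr)
        · rw [hXrq, a_mul_a]
          congr 1
          rw [← Nat.cast_add]
          congr 1
          omega
        · rw [hXrq, one_def]
          intro h
          have h1 := QuaternionGroup.a.inj h
          rw [ZMod.natCast_eq_zero_iff] at h1
          have h2 := Nat.le_of_dvd (by positivity) h1
          omega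
        · rw [hXrq]
          intro h
          have h1 := QuaternionGroup.a.inj h
          rw [ZMod.natCast_eq_natCast_iff, Nat.modEq_iff_dvd'] at h1
          · have h2 := Nat.le_of_dvd (by omega) h1
            omega
          · omega
        · rw [hYl, xa_mul_xa]
          simp
        · rw [hXrq]; rfl
        · rw [hYl]; rfl
      have e2 : aug Y.v = chi _ Y.q := hYG
      rw [e1, hYl] at e2
      exact absurd e2 (by simp [chi])
    have hxt' := hxt x hx
    have hyt' := hxt y hy
    have hq2 : x.q * y.q = y.q * x.q := by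
      by_contra hcomm
      rcases hxq : x.q with s | s <;> rcases hyq : y.q with l | l
      · apply hcomm
        rw [hxq, hyq, a_mul_a, a_mul_a, add_comm]
      · refine hno x y hyG hxt' hyt' ⟨s, ?_, hxq⟩ ⟨l, hyq⟩
        intro h
        apply hcomm
        rw [hxq, hyq, a_mul_xa, xa_mul_a]
        congr 1
        linear_combination -h
      · refine hno y x hxG hyt' hxt' ⟨l, ?_, hyq⟩ ⟨s, hxq⟩
        intro h
        apply hcomm
        rw [hxq, hyq, a_mul_xa, xa_mul_a]
        congr 1
        linear_combination h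
      · refine hno (x * y) y hyG ?_ hyt' ⟨((2 ^ N : ℕ) : ZMod (2 * 2 ^ N)) + l - s, ?_, ?_⟩ ⟨l, hyq⟩
        · exact Commute.mul_left hxt' hyt'
        · intro h
          apply hcomm
          rw [hxq, hyq, xa_mul_xa, xa_mul_xa]
          congr 1
          have h2 := two_k (2 ^ N)
          push_cast at h h2 ⊢
          linear_combination h - h2
        · rw [mul_q, hxq, hyq, xa_mul_xa]
    have h3 : x * y * (y * x)⁻¹ = 1 := by
      apply hC1
      · have h4 : Commute (x * y) t := Commute.mul_left hxt' hyt'
        have h5 : Commute (y * x) t := Commute.mul_left hyt' hxt'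
        exact h4.mul_left h5.inv_left
      · rw [mul_q, inv_q, mul_q, mul_q, hq2, mul_inv_cancel]
    exact mul_inv_eq_one.mp h3

/-- For every `n ≥ 3` there is a profinite CA-group with an abelian closed normal subgroup whose
quotient is the generalised quaternion group of order `2 ^ n`. -/
theorem result (n : ℕ) (hn : 3 ≤ n) :
    ∃ (G : Type) (_ : Group G) (_ : TopologicalSpace G) (_ : IsTopologicalGroup G),
      CompactSpace G ∧ T2Space G ∧ TotallyDisconnectedSpace G ∧ IsCA G ∧
      ∃ (N : Subgroup G) (_ : N.Normal), IsClosed (N : Set G) ∧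
        (∀ x ∈ N, ∀ y ∈ N, x * y = y * x) ∧
        Nonempty (G ⧸ N ≃* QuaternionGroup (2 ^ (n - 2))) := by
  obtain ⟨M, rfl⟩ := Nat.exists_eq_add_of_le hn
  have hM : 3 + M - 2 = M + 1 := by omega
  rw [hM]
  set k := 2 ^ (M + 1) with hk
  have hcl : CompactSpace (OddF k) := isCompact_iff_compactSpace.mp (OddF_closed.isCompact)
  have h1 : IsTopologicalGroup (Aff (OddF k) (QuaternionGroup k)) := topGroup smul_cont
  have h2 : CompactSpace (Aff (OddF k) (QuaternionGroup k)) := compact
  have h3 : T2Space (Aff (OddF k) (QuaternionGroup k)) := t2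
  have h4 : TotallyDisconnectedSpace (Aff (OddF k) (QuaternionGroup k)) := totDisc
  have h5 : CompactSpace (GG k) := isCompact_iff_compactSpace.mp (GG_closed.isCompact)
  let π : GG k →* QuaternionGroup k := lin.comp (GG k).subtype
  have hπ : Function.Surjective π := by
    intro q
    obtain ⟨f, hf⟩ := exists_aug (k := k)
    have h6 : chi k q = 0 ∨ chi k q = 1 := by
      generalize chi k q = y
      revert y
      decide
    rcases h6 with h6 | h6
    · exact ⟨⟨⟨0, q⟩, by change aug (0 : OddF k) = chi k q; rw [map_zero, h6]⟩, rfl⟩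
    · exact ⟨⟨⟨f, q⟩, by change aug f = chi k q; rw [hf, h6]⟩, rfl⟩
  refine ⟨GG k, inferInstance, inferInstance, inferInstance, h5, inferInstance, inferInstance,
    ca (by omega), π.ker, inferInstance, ?_, ?_, ⟨QuotientGroup.quotientKerEquivOfSurjective π hπ⟩⟩
  · let _ : TopologicalSpace (QuaternionGroup k) := ⊥
    have _ : DiscreteTopology (QuaternionGroup k) := ⟨rfl⟩
    have hc : Continuous π := cont_q.comp continuous_subtype_val
    exact isClosed_singleton.preimage hc
  · intro x hx y hy
    apply Subtype.ext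
    have hx' : x.1.q = 1 := hx
    have hy' : y.1.q = 1 := hy
    apply Aff.ext
    · change x.1.v + x.1.q • y.1.v = y.1.v + y.1.q • x.1.v
      rw [hx', hy', one_smul, one_smul, add_comm]
    · change x.1.q * y.1.q = y.1.q * x.1.q
      rw [hx', hy']

end Pool.Agent.Results.MP_427463_al.AllN
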